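import Pool.Agent.H73.NK.Targets

/-!
FM: factorisations of rough numbers (nk_modules), by helper73.
-/

set_option autoImplicit false

namespace Pool.Agent.H73.NK

open Finset

theorem fm_one (s : ℕ) : (fm s 1).card ≤ 1 := by
  classical
  rw [Finset.card_le_one]
  intro f hf g hg
  unfold fm at hf hg
  rw [mem_filter, Fintype.mem_piFinset] at hf hg
  funext i
  have h1 := hf.1 i
  have h2 := hg.1 i
  simp only [Nat.divisors_one, mem_singleton] at h1 h2
  rw [h1, h2]

theorem fm_mul (s p r : ℕ) (hp : p.Prime) (hr : 1 ≤ r) :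
    (fm s (p * r)).card ≤ s * (fm s r).card := by
  classical
  have hsub : fm s (p * r) ⊆ (univ : Finset (Fin s)).biUnion
      (fun j => (fm s r).image (fun f => Function.update f j (p * f j))) := by
    intro f hf
    unfold fm at hf
    rw [mem_filter, Fintype.mem_piFinset] at hf
    obtain ⟨h1, h2⟩ := hf
    have h3 : p ∣ ∏ i, f i := by rw [h2]; exact dvd_mul_right _ _
    obtain ⟨j, -, hj⟩ := (Prime.dvd_finsetProd_iff hp.prime _).1 h3
    obtain ⟨a, ha⟩ := hj
    rw [mem_biUnion]
    refine ⟨j, mem_univ _, ?_⟩
    rw [mem_image]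
    refine ⟨Function.update f j a, ?_, ?_⟩
    · unfold fm
      rw [mem_filter, Fintype.mem_piFinset]
      have h4 : ∏ i, Function.update f j a i = r := by
        rw [← Finset.mul_prod_erase _ _ (mem_univ j)] at h2 ⊢
        have h5 : ∏ x ∈ (univ : Finset (Fin s)).erase j, Function.update f j a x =
            ∏ x ∈ (univ : Finset (Fin s)).erase j, f x := by
          refine Finset.prod_congr rfl fun x hx => ?_
          rw [Function.update_of_ne (Finset.ne_of_mem_erase hx)]
        rw [h5, Function.update_self]
        rw [ha, mul_assoc] at h2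
        exact Nat.eq_of_mul_eq_mul_left hp.pos h2
      refine ⟨fun i => ?_, h4⟩
      rw [Nat.mem_divisors]
      refine ⟨?_, by omega⟩
      rw [← h4]
      exact Finset.dvd_prod_of_mem _ (mem_univ i)
    · funext i
      by_cases hi : i = j
      · subst hi
        rw [Function.update_self, Function.update_self, ha]
      · rw [Function.update_of_ne hi, Function.update_of_ne hi]
  refine (Finset.card_le_card hsub).trans (Finset.card_biUnion_le.trans ?_)
  calc ∑ j : Fin s, ((fm s r).image (fun f => Function.update f j (p * f j))).card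
      ≤ ∑ _j : Fin s, (fm s r).card := Finset.sum_le_sum fun j _ => Finset.card_image_le
    _ = s * (fm s r).card := by simp

theorem fm_bound (s : ℕ) (z : ℝ) (hz : (s : ℝ) ^ 2 ≤ z) (hz1 : 1 ≤ z) :
    ∀ n r : ℕ, r ≤ n → 1 ≤ r → Rough z r → ((fm s r).card : ℝ) ^ 2 ≤ r := by
  intro n
  induction n with
  | zero =>
    intro r h1 h2
    omega
  | succ n ih =>
    intro r h1 h2 h3
    rcases Nat.lt_or_ge r 2 with h | h
    · have hr : r = 1 := by omega
      subst hr
      have := fm_one s
      have h4 : ((fm s 1).card : ℝ) ≤ 1 := by exact_mod_cast this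
      have h5 : (0 : ℝ) ≤ ((fm s 1).card : ℝ) := Nat.cast_nonneg _
      push_cast
      nlinarith
    · obtain ⟨p, hp, a, ha⟩ : ∃ p : ℕ, p.Prime ∧ p ∣ r :=
        ⟨r.minFac, Nat.minFac_prime (by omega), Nat.minFac_dvd r⟩
      have ha1 : 1 ≤ a := by
        rcases Nat.eq_zero_or_pos a with h0 | h0
        · rw [h0, mul_zero] at ha
          omega
        · exact h0
      have haler : a ≤ n := by
        have : 2 * a ≤ r := by
          rw [ha]
          exact Nat.mul_le_mul_right _ hp.two_le
        omega
      have hpz : z < p := h3 p hp ⟨a, ha⟩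
      have hrough : Rough z a := by
        intro q hq hqa
        refine h3 q hq ?_
        rw [ha]
        exact dvd_mul_of_dvd_right hqa _
      have h4 := ih a haler ha1 hrough
      have h5 : ((fm s r).card : ℝ) ≤ s * (fm s a).card := by
        have := fm_mul s p a hp ha1
        rw [← ha] at this
        exact_mod_cast this
      have h6 : (0 : ℝ) ≤ ((fm s r).card : ℝ) := Nat.cast_nonneg _
      calc ((fm s r).card : ℝ) ^ 2 ≤ (s * (fm s a).card) ^ 2 := by gcongr
        _ = (s : ℝ) ^ 2 * ((fm s a).card : ℝ) ^ 2 := by ring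
        _ ≤ z * a := by gcongr
        _ ≤ p * a := by gcongr
        _ = r := by
            rw [ha]
            push_cast
            ring

theorem pf_fm : T_FM := fun s r z h1 h2 h3 h4 => fm_bound s z h2 h3 r r le_rfl h1 h4

end Pool.Agent.H73.NK
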