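import Pool.Agent.H73.NK.Targets

/-!
F1: choice of the parameters (nk_modules).
-/

set_option autoImplicit false

namespace Pool.Agent.H73.NK

open Finset
open Pool.Agent.H30.BV (SC SP NX WX wx)

/-- growth conditions for large `s` -/
theorem f1_large (C1 A c X₀ : ℝ) (hc : 0 < c) : ∃ s₀ : ℕ, ∀ s : ℕ, s₀ ≤ s →
    3 ≤ s ∧ C1 ≤ s ∧ A ≤ s ∧ X₀ ≤ s ∧
    2 * (s : ℝ) ^ 5 * Real.exp (4 * s) + 2 ≤ c * Real.exp (6 * s) := by
  have h1 : ∀ᶠ s : ℕ in Filter.atTop, 2 * (s : ℝ) ^ 5 * Real.exp (4 * s) + 2 ≤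
      c * Real.exp (6 * s) := by
    have h2 : Filter.Tendsto (fun x : ℝ => x ^ 5 * Real.exp (-x)) Filter.atTop (nhds 0) :=
      Real.tendsto_pow_mul_exp_neg_atTop_nhds_zero 5
    have h3 : ∀ᶠ x : ℝ in Filter.atTop, x ^ 5 * Real.exp (-x) ≤ c / 4 :=
      h2.eventually_le_const (by positivity)
    have h4 : Filter.Tendsto (fun x : ℝ => Real.exp x) Filter.atTop Filter.atTop :=
      Real.tendsto_exp_atTop
    have h5 := h4.eventually_ge_atTop (4 / c)
    have h6 := (h3.and h5).and (Filter.eventually_ge_atTop (1 : ℝ))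
    have h7 := tendsto_natCast_atTop_atTop (R := ℝ)|>.eventually h6
    filter_upwards [h7] with s hs
    obtain ⟨⟨a1, a2⟩, a3⟩ := hs
    have a4 : (s : ℝ) ^ 5 ≤ c / 4 * Real.exp s := by
      have := mul_le_mul_of_nonneg_right a1 (Real.exp_pos (s : ℝ)).le
      rwa [mul_assoc, ← Real.exp_add, neg_add_cancel, Real.exp_zero, mul_one] at this
    have a5 : 4 ≤ c * Real.exp s := by
      rw [div_le_iff₀ hc] at a2
      linarith
    have a6 : Real.exp (6 * s) = Real.exp s * Real.exp s * Real.exp (4 * s) := by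
      rw [← Real.exp_add, ← Real.exp_add]
      ring_nf
    have a7 : 1 ≤ Real.exp (4 * (s : ℝ)) := Real.one_le_exp (by positivity)
    have a8 : 2 ≤ Real.exp (s : ℝ) := by
      have := Real.add_one_le_exp (s : ℝ)
      linarith
    rw [a6]
    set e := Real.exp (s : ℝ)
    set f := Real.exp (4 * (s : ℝ))
    have b1 : 2 * (s : ℝ) ^ 5 * f ≤ 2 * (c / 4 * e) * f := by gcongr
    have b2 : 2 * (c / 4 * e) * f ≤ c * (e * e) / 4 * f := by
      have : 2 * (c / 4 * e) ≤ c * (e * e) / 4 := by nlinarith [mul_pos hc (Real.exp_pos (s : ℝ))]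
      gcongr
    have b3 : 2 ≤ c * (e * e) / 4 * f := by
      have : 2 ≤ c * (e * e) / 4 := by nlinarith
      nlinarith
    have b4 : 0 ≤ c * (e * e) * f := by positivity
    nlinarith
  obtain ⟨s1, hs1⟩ := Filter.eventually_atTop.1 h1
  refine ⟨max (max s1 3) (max (max ⌈C1⌉₊ ⌈A⌉₊) ⌈X₀⌉₊), fun s hs => ?_⟩
  simp only [max_le_iff] at hs
  obtain ⟨⟨h2, h3⟩, ⟨h4, h5⟩, h6⟩ := hs
  exact ⟨h3, Nat.ceil_le.1 h4, Nat.ceil_le.1 h5, Nat.ceil_le.1 h6, hs1 s h2⟩

theorem f1_a {S u C1 : ℝ} (hS : 3 ≤ S) (hu : 1 ≤ u) (hC : 1 ≤ C1) :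
    1 ≤ C1 ^ 2 ∧ 3 ≤ S * u ∧ S * u ≤ S ^ 3 * u ∧ S * u ≤ C1 * (S * u) ∧
    C1 * S + 1 ≤ 2 * C1 * S := by
  have h1 : 1 ≤ C1 ^ 2 := by nlinarith
  have h2 : 3 ≤ S * u := by nlinarith
  have h3 : S ≤ S ^ 3 := by
    have : 1 ≤ S ^ 2 := by nlinarith
    nlinarith
  have h4 : S * u ≤ S ^ 3 * u := by gcongr
  have h5 : 1 ≤ C1 * S := by nlinarith
  refine ⟨h1, h2, h4, ?_, by linarith⟩
  have : 1 * (S * u) ≤ C1 * (S * u) := by gcongr
  linarith

theorem f1_b {S u K : ℝ} (hS : 3 ≤ S) (hu : 1 ≤ u) (huS : u ≤ S) (hC : 1 ≤ K)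
    (hK : 2200 * K ≤ S) :
    32 * (S * u) ≤ 32 * K * (S ^ 3 * u) ∧ 68 * (32 * K * (S ^ 3 * u)) ≤ S ^ 5 ∧
    1 + 32 * K * (S ^ 2 * u) ≤ S ^ 4 ∧ 4 * K * S ^ 2 ≤ S ^ 3 := by
  have h3 : S ≤ S ^ 3 := by
    have : 1 ≤ S ^ 2 := by nlinarith
    nlinarith
  have h4 : S * u ≤ S ^ 3 * u := by gcongr
  have h0 : 0 ≤ S ^ 3 * u := by positivity
  have h00 : 0 ≤ S ^ 2 * u := by positivity
  refine ⟨?_, ?_, ?_, ?_⟩
  · calc 32 * (S * u) ≤ 32 * (S ^ 3 * u) := by linarith
      _ ≤ 32 * (K * (S ^ 3 * u)) := by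
          have : 1 * (S ^ 3 * u) ≤ K * (S ^ 3 * u) := by gcongr
          linarith
      _ = _ := by ring
  · calc 68 * (32 * K * (S ^ 3 * u)) = (2176 * K) * (S ^ 3 * u) := by ring
      _ ≤ S * (S ^ 3 * S) := by
          have : 2176 * K ≤ S := by linarith
          gcongr
      _ = S ^ 5 := by ring
  · have h5 : 1 ≤ S ^ 2 * u := by nlinarith
    have h6 : 1 ≤ K * (S ^ 2 * u) := by nlinarith
    calc 1 + 32 * K * (S ^ 2 * u) ≤ (33 * K) * (S ^ 2 * u) := by linarith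
      _ ≤ S * (S ^ 2 * S) := by
          have : 33 * K ≤ S := by linarith
          gcongr
      _ = S ^ 4 := by ring
  · have : 4 * K ≤ S := by linarith
    calc 4 * K * S ^ 2 ≤ S * S ^ 2 := by gcongr
      _ = S ^ 3 := by ring

theorem f1_c {S u : ℝ} (hS : 3 ≤ S) (hu : 1 ≤ u) :
    11 * u ≤ 4 * (S * u) ∧ 2 * u ≤ 16 * S * u ∧ 3 * u ≤ 16 * S * u ∧ 9 * u ≤ 8 * (S * u) ∧
      16 ≤ S ^ 3 := by
  have : 3 * u ≤ S * u := by gcongr
  refine ⟨by linarith, by linarith, by linarith, by linarith, ?_⟩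
  have h2 : (3 : ℝ) ^ 3 ≤ S ^ 3 := by gcongr
  linarith

theorem f1 (hWI : T_WI) (hSZ : T_SZ) (hER : T_ER) (hWS : T_WS) (hPR : T_PR) (hBD : T_BD)
    (hBQ : T_BQ) : T_F1 := by
  obtain ⟨C1, hC1, hWI⟩ := hWI
  obtain ⟨CE, hCE, hER⟩ := hER
  obtain ⟨c, X₀, hc, hWS⟩ := hWS
  obtain ⟨CP, hCP, hPR⟩ := hPR
  obtain ⟨s₀, hs₀⟩ := f1_large (2200 * C1 ^ 2) (2 * CE + CP) c X₀ hc
  have hC1sq : 1 ≤ C1 ^ 2 := one_le_pow₀ hC1
  refine ⟨544 * C1 ^ 2, s₀, by linarith, fun s hs => ?_⟩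
  obtain ⟨hs3, hsC', hsE, hsX, hsL⟩ := hs₀ s hs
  have hS3 : (3 : ℝ) ≤ s := by exact_mod_cast hs3
  have hS0 : (0 : ℝ) < s := by linarith
  obtain ⟨S, hS⟩ : ∃ S : ℝ, S = s := ⟨_, rfl⟩
  obtain ⟨u, hu⟩ : ∃ u : ℝ, u = Real.log s := ⟨_, rfl⟩
  have hu1 : 1 ≤ u := by
    rw [hu, Real.le_log_iff_exp_le hS0]
    linarith [Real.exp_one_lt_d9]
  have huS : u ≤ S := by
    rw [hu, hS]
    have := Real.log_le_sub_one_of_pos hS0
    linarith
  have heu : Real.exp u = S := by rw [hu, hS, Real.exp_log hS0]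
  rw [← hS] at hS3 hS0 hsC' hsE hsX hsL
  obtain ⟨z, hz⟩ : ∃ z : ℝ, z = Real.exp (16 * S * u) := ⟨_, rfl⟩
  have hSu : 0 < S * u := by positivity
  obtain ⟨-, hSu3, hS3u, hCSu, hCS⟩ := f1_a hS3 hu1 hC1
  obtain ⟨hb1, hb2, hb3, hb4⟩ := f1_b hS3 hu1 huS hC1sq hsC'
  obtain ⟨hc1, hc2, hc3, hc4, hc5⟩ := f1_c hS3 hu1
  have hlz : Real.log z = 16 * S * u := by rw [hz, Real.log_exp]
  have hz3 : 3 ≤ z := by
    rw [hz]
    have := Real.add_one_le_exp (16 * S * u)
    linarith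
  have hz0 : 0 < z := by linarith
  obtain ⟨l, hl⟩ : ∃ l : ℝ, l = C1 * Real.log z := ⟨_, rfl⟩
  have hl' : l = 16 * C1 * (S * u) := by rw [hl, hlz]; ring
  have hl2 : 16 * (S * u) ≤ l := by rw [hl']; linarith
  have hl0 : 0 ≤ l := by linarith
  obtain ⟨H, hH⟩ : ∃ H : ℝ, H = 2 * C1 * S := ⟨_, rfl⟩
  obtain ⟨E, hE⟩ : ∃ E : ℝ, E = S * H * l := ⟨_, rfl⟩
  have hE' : E = 32 * C1 ^ 2 * (S ^ 3 * u) := by rw [hE, hH, hl']; ring
  have hE1 : 32 * (S * u) ≤ E := by rw [hE']; exact hb1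
  have hE96 : 96 ≤ E := by linarith
  have hSE : S ≤ E := by
    have : S * 1 ≤ S * u := by gcongr
    linarith
  have hE5 : 68 * E ≤ S ^ 5 := by rw [hE']; exact hb2
  have hHl : H * l = 32 * C1 ^ 2 * (S ^ 2 * u) := by rw [hH, hl']; ring
  have hHl0 : 0 ≤ H * l := by rw [hHl]; positivity
  have hHl4 : 1 + H * l ≤ S ^ 4 := by rw [hHl]; exact hb3
  have hpow : (1 + H * l) ^ s ≤ Real.exp (4 * (S * u)) := by
    calc (1 + H * l) ^ s ≤ (S ^ 4) ^ s := by gcongr
      _ = Real.exp (4 * (S * u)) := by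
          rw [← heu, ← Real.exp_nat_mul, ← Real.exp_nat_mul]
          congr 1
          rw [heu, hS]
          push_cast
          ring
  obtain ⟨X, hX⟩ : ∃ X : ℝ, X = Real.exp (16 * E) := ⟨_, rfl⟩
  have hX0 : 0 < X := by rw [hX]; exact Real.exp_pos _
  have hXE : 16 * E ≤ X := by
    rw [hX]
    have := Real.add_one_le_exp (16 * E)
    linarith
  have hX12 : 12 ≤ X := by linarith
  have hlX : Real.log X = 16 * E := by rw [hX, Real.log_exp]
  obtain ⟨h, hh1, hh2, hh3⟩ := hWI s z (by omega) hz3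
  have hhH : ∀ i, (h i : ℝ) + 1 ≤ H := by
    intro i
    have := (hh1 i).2
    rw [hH]
    rw [← hS] at this
    linarith
  have hsE' : (s : ℝ) * H * l = E := by rw [← hS, hE]
  -- polynomial against exponential
  have hpoly : (2 * CE + CP) * (16 * E) ^ 2 ≤ Real.exp (4 * (S * u)) := by
    have h1 : (16 * E) ^ 2 ≤ (S ^ 5) ^ 2 := by
      have : 16 * E ≤ S ^ 5 := by linarith
      gcongr
    have h2 : (S ^ 5) ^ 2 * S ≤ Real.exp (4 * (S * u)) := by
      have : (S ^ 5) ^ 2 * S = Real.exp (11 * u) := by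
        have h3 : (S ^ 5) ^ 2 * S = S ^ 11 := by ring
        rw [h3, ← heu, ← Real.exp_nat_mul]
        norm_num
      rw [this]
      exact Real.exp_le_exp.2 hc1
    calc (2 * CE + CP) * (16 * E) ^ 2 ≤ S * (S ^ 5) ^ 2 := by gcongr
      _ = (S ^ 5) ^ 2 * S := by ring
      _ ≤ _ := h2
  have hE4 : Real.exp (4 * (S * u)) ≤ Real.exp E := Real.exp_le_exp.2 (by linarith)
  have hCE2 : 2 * CE * (16 * E) ^ 2 ≤ Real.exp (4 * (S * u)) := by
    have : 0 ≤ CP * (16 * E) ^ 2 := by positivity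
    linarith
  have hCP2 : CP * (16 * E) ^ 2 ≤ Real.exp (4 * (S * u)) := by
    have : 0 ≤ 2 * CE * (16 * E) ^ 2 := by positivity
    linarith
  -- the facts about the tuples
  obtain ⟨hT1, hT2, hT3⟩ := hSZ s z l H h hl0 hhH
  rw [hsE'] at hT2
  have hmain : Real.exp (6 * S) ≤ ∑ t ∈ TT z l h, (1 : ℝ) / DT t := by
    rw [hT3]
    calc Real.exp (6 * S) = ∏ _i : Fin s, Real.exp 6 := by
          rw [Finset.prod_const, Finset.card_univ, Fintype.card_fin, ← Real.exp_nat_mul, hS]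
          congr 1
          ring
      _ ≤ _ := by
          refine Finset.prod_le_prod (fun i _ => (Real.exp_pos _).le) fun i _ => ?_
          have := hh3 i
          rwa [← hl] at this
  -- error
  have herr := hER s z l H X h (by linarith) hl0 (by omega) ?_ hz3 hhH ?_ ?_
  rotate_left
  · rw [← hS, hz]
    calc S ^ 2 = Real.exp (2 * u) := by
          rw [← heu, ← Real.exp_nat_mul]
          norm_num
      _ ≤ _ := Real.exp_le_exp.2 hc2
  · rw [hsE', hlz, hE']
    have h1 : 4 * C1 ^ 2 * S ^ 2 ≤ z := by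
      have h2 : 4 * C1 ^ 2 * S ^ 2 ≤ S ^ 3 := hb4
      have h3 : S ^ 3 = Real.exp (3 * u) := by
        rw [← heu, ← Real.exp_nat_mul]
        norm_num
      rw [hz]
      refine h2.trans ?_
      rw [h3]
      exact Real.exp_le_exp.2 hc3
    calc 2 * (32 * C1 ^ 2 * (S ^ 3 * u)) = (4 * C1 ^ 2 * S ^ 2) * (16 * S * u) := by ring
      _ ≤ z * (16 * S * u) := by gcongr
  · rw [hsE', hX]
    have h1 : 2 ≤ Real.exp E := by
      have := Real.add_one_le_exp E
      linarith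
    calc (2 * Real.exp E) ^ 8 ≤ (Real.exp E * Real.exp E) ^ 8 := by gcongr
      _ = Real.exp (16 * E) := by
          rw [← Real.exp_add, ← Real.exp_nat_mul]
          congr 1
          push_cast
          ring
  rw [hsE', hlX] at herr
  have hsz : √z = Real.exp (8 * (S * u)) := by
    rw [hz, Real.sqrt_eq_iff_mul_self_eq (Real.exp_pos _).le (Real.exp_pos _).le, ← Real.exp_add]
    congr 1
    ring
  have herr2 : CE * (16 * E) ^ 2 * (Real.exp E + (1 + H * l) ^ s * X / √z) ≤ X := by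
    rw [mul_add]
    have h1 : CE * (16 * E) ^ 2 * Real.exp E ≤ X / 2 := by
      have h2 : 2 * CE * (16 * E) ^ 2 * Real.exp E ≤ Real.exp E * Real.exp E := by
        have := hCE2.trans hE4
        gcongr
      have h3 : Real.exp E * Real.exp E ≤ X := by
        rw [hX, ← Real.exp_add]
        exact Real.exp_le_exp.2 (by linarith)
      linarith
    have h2 : CE * (16 * E) ^ 2 * ((1 + H * l) ^ s * X / √z) ≤ X / 2 := by
      have h3 : (1 + H * l) ^ s * X / √z ≤ X * Real.exp (-(4 * (S * u))) := by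
        rw [hsz, div_le_iff₀ (Real.exp_pos _)]
        have : X * Real.exp (-(4 * (S * u))) * Real.exp (8 * (S * u)) =
            Real.exp (4 * (S * u)) * X := by
          rw [mul_assoc, ← Real.exp_add, mul_comm]
          congr 2
          ring
        rw [this]
        gcongr
      have h4 : 2 * CE * (16 * E) ^ 2 * (X * Real.exp (-(4 * (S * u)))) ≤
          Real.exp (4 * (S * u)) * (X * Real.exp (-(4 * (S * u)))) := by gcongr
      have h5 : Real.exp (4 * (S * u)) * (X * Real.exp (-(4 * (S * u)))) = X := by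
        rw [mul_comm X, ← mul_assoc, ← Real.exp_add, add_neg_cancel, Real.exp_zero, one_mul]
      have h6 : CE * (16 * E) ^ 2 * ((1 + H * l) ^ s * X / √z) ≤
          CE * (16 * E) ^ 2 * (X * Real.exp (-(4 * (S * u)))) := by gcongr
      linarith
    linarith
  have hws := hWS s z l X h (by linarith) (fun t ht => by
    obtain ⟨a1, a2, -⟩ := hT1 t ht
    refine ⟨a1, a2.trans ?_⟩
    rw [hsE', hX]
    exact Real.exp_le_exp.2 (by linarith))
  rw [hlX] at hws
  have hW : c * X * Real.exp (6 * S) - X ≤ ∑ n ∈ Icc 1 (NX X), wx X n * om z l h n := by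
    have : c * X * Real.exp (6 * S) ≤ c * X * ∑ t ∈ TT z l h, (1 : ℝ) / DT t := by gcongr
    linarith [herr.trans herr2]
  have hpr := hPR s z l X h (by linarith)
  rw [hlX] at hpr
  have hsX : √X = Real.exp (8 * E) := by
    rw [hX, Real.sqrt_eq_iff_mul_self_eq (Real.exp_pos _).le (Real.exp_pos _).le, ← Real.exp_add]
    congr 1
    ring
  have hpp : CP * √X * (16 * E) ^ 2 * ((TT z l h).card : ℝ) ≤ X := by
    rw [hsX]
    calc CP * Real.exp (8 * E) * (16 * E) ^ 2 * ((TT z l h).card : ℝ)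
        ≤ CP * Real.exp (8 * E) * (16 * E) ^ 2 * Real.exp E := by gcongr
      _ = (CP * (16 * E) ^ 2) * (Real.exp (8 * E) * Real.exp E) := by ring
      _ ≤ Real.exp E * (Real.exp (8 * E) * Real.exp E) := by
          have := hCP2.trans hE4
          gcongr
      _ ≤ X := by
          rw [hX, ← Real.exp_add, ← Real.exp_add]
          exact Real.exp_le_exp.2 (by linarith)
  have hl4 : Real.log (4 * X) ≤ 17 * E := by
    rw [Real.log_mul (by norm_num) hX0.ne', hlX]
    have : Real.log 4 ≤ 3 := by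
      have := Real.log_le_sub_one_of_pos (show (0:ℝ) < 4 by norm_num)
      linarith
    linarith
  have hl40 : 0 < Real.log (4 * X) := Real.log_pos (by linarith)
  have hom : 2 * Real.exp (4 * S) ≤ ∑ q ∈ PQ X, (om z l h q : ℝ) / q := by
    refine le_trans ?_ hpr
    rw [le_div_iff₀ (by positivity)]
    have h1 : 2 * Real.exp (4 * S) * (4 * X * Real.log (4 * X)) ≤
        2 * Real.exp (4 * S) * (4 * X * (17 * E)) := by gcongr
    have h2 : 2 * Real.exp (4 * S) * (4 * X * (17 * E)) = X * (2 * (68 * E) * Real.exp (4 * S)) := by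
      ring
    have h3 : X * (2 * (68 * E) * Real.exp (4 * S)) ≤ X * (2 * S ^ 5 * Real.exp (4 * S)) := by
      gcongr
    have h4 : X * (2 * S ^ 5 * Real.exp (4 * S) + 2) ≤ X * (c * Real.exp (6 * S)) := by
      gcongr
    linarith
  have hbq := hBQ s z l X h (by linarith) hl0
  have hbd := hBD s z l H h (by linarith) hhH
  have hb : ∑ q ∈ PQ X, (bm z l h q : ℝ) / q ≤ 1 := by
    refine hbq.trans ?_
    have h1 : Real.log (5 * X) ≤ 17 * E - 1 := by
      rw [Real.log_mul (by norm_num) hX0.ne', hlX]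
      have : Real.log 5 ≤ 4 := by
        have := Real.log_le_sub_one_of_pos (show (0:ℝ) < 5 by norm_num)
        linarith
      linarith
    have h2 : ∑ t ∈ BT z l h, (1 : ℝ) / DT t ≤ 16 * S * Real.exp (-(8 * (S * u))) := by
      refine hbd.trans ?_
      rw [← hS]
      have h3 : (1 + H * l) ^ (2 * s) ≤ Real.exp (8 * (S * u)) := by
        calc (1 + H * l) ^ (2 * s) = ((1 + H * l) ^ s) ^ 2 := by rw [← pow_mul, mul_comm s 2]
          _ ≤ (Real.exp (4 * (S * u))) ^ 2 := by gcongr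
          _ = Real.exp (8 * (S * u)) := by
              rw [← Real.exp_nat_mul]
              congr 1
              push_cast
              ring
      have h4 : Real.exp (-l) ≤ Real.exp (-(16 * (S * u))) := Real.exp_le_exp.2 (by linarith)
      calc 16 * S * Real.exp (-l) * (1 + H * l) ^ (2 * s)
          ≤ 16 * S * Real.exp (-(16 * (S * u))) * Real.exp (8 * (S * u)) := by gcongr
        _ = 16 * S * Real.exp (-(8 * (S * u))) := by
            rw [mul_assoc, ← Real.exp_add]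
            congr 2
            ring
    have h5 : 0 ≤ ∑ t ∈ BT z l h, (1 : ℝ) / DT t :=
      Finset.sum_nonneg fun t _ => by positivity
    have h6 : (S ^ 5) * S * 16 ≤ Real.exp (8 * (S * u)) := by
      have h7 : S ^ 5 * S * 16 ≤ S ^ 9 := by
        calc S ^ 5 * S * 16 ≤ S ^ 5 * S * S ^ 3 := by gcongr
          _ = S ^ 9 := by ring
      have h8 : S ^ 9 = Real.exp (9 * u) := by
        rw [← heu, ← Real.exp_nat_mul]
        norm_num
      refine h7.trans ?_
      rw [h8]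
      exact Real.exp_le_exp.2 hc4
    calc 2 * (1 + Real.log (5 * X)) * ∑ t ∈ BT z l h, (1 : ℝ) / DT t
        ≤ 2 * (17 * E) * (16 * S * Real.exp (-(8 * (S * u)))) := by
          gcongr
          linarith
      _ ≤ S ^ 5 * (16 * S * Real.exp (-(8 * (S * u)))) := by
          gcongr
          linarith
      _ = (S ^ 5 * S * 16) * Real.exp (-(8 * (S * u))) := by ring
      _ ≤ Real.exp (8 * (S * u)) * Real.exp (-(8 * (S * u))) := by gcongr
      _ = 1 := by rw [← Real.exp_add, add_neg_cancel, Real.exp_zero]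
  refine ⟨z, l, H, X, h, by linarith, hhH, fun i => (hh1 i).1, hh2, hX12, ?_, ?_, ?_⟩
  · rw [hsE', le_div_iff₀ (by norm_num), hX]
    have h1 : (3 : ℝ) ≤ Real.exp (12 * E) := by
      have := Real.add_one_le_exp (12 * E)
      linarith
    calc Real.exp (4 * E) * 3 ≤ Real.exp (4 * E) * Real.exp (12 * E) := by gcongr
      _ = Real.exp (16 * E) := by rw [← Real.exp_add]; ring_nf
  · have h1 : (NX X : ℝ) ≤ 3 * X + 1 := by
      unfold NX
      exact (Nat.ceil_lt_add_one (by positivity)).le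
    have h2 : (544 * C1 ^ 2) * (s : ℝ) ^ 3 * Real.log s = 17 * E := by
      rw [hE', ← hS, hS, ← hu]
      ring
    rw [h2]
    calc (NX X : ℝ) ≤ 3 * X + 1 := h1
      _ ≤ X * Real.exp E := by
          have h3 := Real.add_one_le_exp E
          have h4 : X * 4 ≤ X * Real.exp E := by
            have : 4 ≤ Real.exp E := by linarith
            gcongr
          linarith
      _ = Real.exp (17 * E) := by
          rw [hX, ← Real.exp_add]
          ring_nf
  · rw [← hS]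
    have h1 : ∑ q ∈ PQ X, ((om z l h q : ℝ) - bm z l h q) / q =
        ∑ q ∈ PQ X, (om z l h q : ℝ) / q - ∑ q ∈ PQ X, (bm z l h q : ℝ) / q := by
      rw [← Finset.sum_sub_distrib]
      exact Finset.sum_congr rfl fun q _ => by ring
    rw [h1]
    have h2 : 1 ≤ Real.exp (4 * S) := Real.one_le_exp (by linarith)
    linarith

end Pool.Agent.H73.NK
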