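import Pool.Agent.H73.NK.Targets

/-!
# From T_FI to the final statement (nk_modules)
-/

set_option autoImplicit false

namespace Pool.Agent.H73.NK

open Filter Topology

/-- the final statement, general form -/
def T_E1 : Prop := ∃ C x₀ : ℝ, 0 < C ∧ ∀ x L : ℝ, x₀ ≤ x → Real.log (Real.log x) ≤ L →
  L ≤ Real.log x ^ (1 / 4 : ℝ) →
    ({k : ℕ | 1 ≤ k ∧ (k : ℝ) ≤ x ∧ ((SPM k).ncard : ℝ) < Real.exp L}.ncard : ℝ) ≤
      x ^ (1 - 1 / (C * L ^ 2 * Real.log L))

/-- the final statement, exceptional set -/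
def T_E2 : Prop := ∃ E : Set ℕ,
  Tendsto (fun k : ℕ => (SPM k).ncard) (atTop ⊓ 𝓟 Eᶜ) atTop ∧
  ∀ᶠ x : ℝ in atTop, ({k : ℕ | k ∈ E ∧ (k : ℝ) ≤ x}.ncard : ℝ) ≤
    x ^ (1 - 1 / Real.log (Real.log x) ^ 3)

theorem e1 (h : T_FI) : T_E1 := by
  obtain ⟨C, x₀, hC, h⟩ := h
  refine ⟨C, max x₀ 1, hC, fun x L hx h1 h2 => ?_⟩
  have hx0 : x₀ ≤ x := (le_max_left _ _).trans hx
  have hx1 : 1 ≤ x := (le_max_right _ _).trans hx
  refine le_trans (le_of_eq ?_) (h x L hx0 h1 h2)
  congr 1
  rw [← Set.ncard_coe_finset]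
  congr 1
  ext k
  simp only [Set.mem_ofPred_eq, Finset.coe_filter, Finset.mem_Icc]
  rw [Nat.le_floor_iff (by linarith)]
  tauto

theorem e2 (h : T_E1) : T_E2 := by
  obtain ⟨C, x₀, hC, h⟩ := h
  refine ⟨{k : ℕ | 1 ≤ k ∧ ((SPM k).ncard : ℝ) < Real.log k}, ?_, ?_⟩
  · have h1 : Tendsto (fun k : ℕ => Real.log (k : ℝ))
        (atTop ⊓ 𝓟 {k : ℕ | 1 ≤ k ∧ ((SPM k).ncard : ℝ) < Real.log k}ᶜ) atTop :=
      (Real.tendsto_log_atTop.comp tendsto_natCast_atTop_atTop).mono_left inf_le_left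
    have h2 : Tendsto (fun k : ℕ => ((SPM k).ncard : ℝ))
        (atTop ⊓ 𝓟 {k : ℕ | 1 ≤ k ∧ ((SPM k).ncard : ℝ) < Real.log k}ᶜ) atTop := by
      refine tendsto_atTop_mono' _ ?_ h1
      rw [Filter.EventuallyLE, Filter.eventually_inf_principal]
      filter_upwards [eventually_ge_atTop 1] with k hk hk2
      by_contra h3
      exact hk2 ⟨hk, not_le.1 h3⟩
    exact tendsto_natCast_atTop_iff.1 h2
  · have hl : Tendsto (fun x : ℝ => Real.log (Real.log x)) atTop atTop :=
      Real.tendsto_log_atTop.comp Real.tendsto_log_atTop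
    have h4 : ∀ᶠ L : ℝ in atTop, C * Real.log L ≤ L ∧ 1 < L ∧ L ≤ Real.exp L ^ (1 / 4 : ℝ) := by
      have a1 : ∀ᶠ L : ℝ in atTop, C * Real.log L ≤ L := by
        have := (Real.isLittleO_log_id_atTop).bound (c := 1 / C) (by positivity)
        filter_upwards [this, eventually_gt_atTop 1] with L hL hL1
        simp only [id, Real.norm_eq_abs] at hL
        rw [abs_of_nonneg (Real.log_nonneg hL1.le), abs_of_pos (by linarith : (0:ℝ) < L)] at hL
        calc C * Real.log L ≤ C * (1 / C * L) := by gcongr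
          _ = L := by field_simp
      have a2 : ∀ᶠ L : ℝ in atTop, L ≤ Real.exp L ^ (1 / 4 : ℝ) := by
        filter_upwards [eventually_ge_atTop 64] with L hL
        rw [← Real.exp_mul]
        have b1 := Real.add_one_le_exp (L / 8)
        have b2 : Real.exp (L * (1 / 4)) = Real.exp (L / 8) * Real.exp (L / 8) := by
          rw [← Real.exp_add]
          ring_nf
        rw [b2]
        nlinarith
      filter_upwards [a1, a2, eventually_gt_atTop 1] with L b1 b2 b3
      exact ⟨b1, b3, b2⟩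
    filter_upwards [hl.eventually h4, eventually_ge_atTop x₀, eventually_gt_atTop (Real.exp 1)] with x h5 h6 h7
    obtain ⟨h8, h9, h10⟩ := h5
    have hx1 : 1 < x := lt_trans (by linarith [Real.exp_one_gt_d9]) h7
    have hlx : 1 < Real.log x := by
      rw [Real.lt_log_iff_exp_lt (by linarith)]
      exact h7
    have h11 : Real.exp (Real.log (Real.log x)) = Real.log x := Real.exp_log (by linarith)
    rw [h11] at h10
    have h12 := h x (Real.log (Real.log x)) h6 le_rfl h10
    refine le_trans ?_ (h12.trans ?_)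
    · norm_cast
      refine Set.ncard_le_ncard ?_ ?_
      · rintro k ⟨⟨hk1, hk2⟩, hk3⟩
        refine ⟨hk1, hk3, ?_⟩
        rw [h11]
        refine hk2.trans_le (Real.log_le_log ?_ hk3)
        exact_mod_cast hk1
      · refine (Set.finite_Iic ⌊x⌋₊).subset ?_
        rintro k ⟨_, hk, _⟩
        exact Nat.le_floor hk
    · set L := Real.log (Real.log x) with hL
      refine Real.rpow_le_rpow_of_exponent_le hx1.le ?_
      have hlL : 0 < Real.log L := Real.log_pos h9
      have h13 : C * L ^ 2 * Real.log L ≤ L ^ 3 := by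
        calc C * L ^ 2 * Real.log L = L ^ 2 * (C * Real.log L) := by ring
          _ ≤ L ^ 2 * L := by gcongr
          _ = L ^ 3 := by ring
      have h14 : 1 / L ^ 3 ≤ 1 / (C * L ^ 2 * Real.log L) :=
        one_div_le_one_div_of_le (by positivity) h13
      linarith

end Pool.Agent.H73.NK
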