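import Pool.Agent.H73.NK.Targets

/-!
PR: from the weighted sum to the primes of `PQ X` (nk_modules), by helper73.
-/

set_option autoImplicit false

namespace Pool.Agent.H73.NK

open Finset ArithmeticFunction
open Pool.Agent.H30.BV (SC SP NX WX wx)
open Pool.Agent.H27.LS (hat hat_nonneg hat_le_one hat_eq_zero)

theorem wx_nonneg (X : ℝ) (n : ℕ) : 0 ≤ wx X n :=
  mul_nonneg vonMangoldt_nonneg (hat_nonneg _)

theorem NX_le (X : ℝ) (hX : 3 ≤ X) : (NX X : ℝ) ≤ 4 * X := by
  unfold NX
  have := (Nat.ceil_lt_add_one (by positivity : (0:ℝ) ≤ 3 * X)).le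
  linarith

theorem om_le {s : ℕ} (z l : ℝ) (h : Fin s → ℕ) (n : ℕ) : om z l h n ≤ (TT z l h).card :=
  Finset.card_filter_le _ _

theorem pf_pr (hPP : T_PP) : T_PR := by
  classical
  obtain ⟨C, hC, hPP⟩ := hPP
  refine ⟨C, hC, fun s z l X h hX => ?_⟩
  have hX0 : 0 < X := by linarith
  have hlog : 0 < Real.log (4 * X) := Real.log_pos (by linarith)
  have hpos : 0 < 4 * X * Real.log (4 * X) := by positivity
  rw [div_le_iff₀ hpos]
  rw [← Finset.sum_filter_add_sum_filter_not (Icc 1 (NX X)) (fun n => n.Prime)]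
  have h1 : ∑ n ∈ (Icc 1 (NX X)).filter (fun n => ¬ n.Prime), wx X n * om z l h n ≤
      C * √X * Real.log X ^ 2 * (TT z l h).card := by
    calc ∑ n ∈ (Icc 1 (NX X)).filter (fun n => ¬ n.Prime), wx X n * om z l h n
        ≤ ∑ n ∈ (Icc 1 (NX X)).filter (fun n => ¬ n.Prime), wx X n * (TT z l h).card := by
          refine Finset.sum_le_sum fun n _ => ?_
          refine mul_le_mul_of_nonneg_left ?_ (wx_nonneg X n)
          exact_mod_cast om_le z l h n
      _ = (∑ n ∈ (Icc 1 (NX X)).filter (fun n => ¬ n.Prime), wx X n) * (TT z l h).card := by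
          rw [Finset.sum_mul]
      _ ≤ _ := mul_le_mul_of_nonneg_right (hPP X hX) (Nat.cast_nonneg _)
  have h2 : ∑ n ∈ (Icc 1 (NX X)).filter (fun n => n.Prime), wx X n * om z l h n ≤
      (∑ q ∈ PQ X, (om z l h q : ℝ) / q) * (4 * X * Real.log (4 * X)) := by
    rw [Finset.sum_mul]
    have h3 : ∀ n ∈ (Icc 1 (NX X)).filter (fun n => n.Prime), n ∉ PQ X →
        wx X n * om z l h n = 0 := by
      intro n hn hnp
      rw [mem_filter, mem_Icc] at hn
      have h4 : ¬ X / 3 ≤ n := by
        intro h5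
        apply hnp
        unfold PQ
        rw [mem_filter, mem_Icc]
        exact ⟨hn.1, hn.2, h5⟩
      push Not at h4
      have hn0 : (0 : ℝ) < n := by exact_mod_cast hn.1.1
      have h5 : 1 ≤ |Real.log (n / X)| := by
        have h6 : Real.log (n / X) ≤ -1 := by
          rw [Real.log_le_iff_le_exp (by positivity), Real.exp_neg, div_le_iff₀ hX0]
          have h7 : Real.exp 1 < 3 := by
            have := Real.exp_one_lt_d9
            linarith
          have h8 : X / 3 ≤ (Real.exp 1)⁻¹ * X := by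
            rw [div_eq_inv_mul]
            have : (3 : ℝ)⁻¹ ≤ (Real.exp 1)⁻¹ := inv_anti₀ (Real.exp_pos 1) h7.le
            gcongr
          linarith
        rw [abs_of_nonpos (by linarith)]
        linarith
      unfold wx
      rw [hat_eq_zero h5]
      ring
    have h4 : ∑ n ∈ (Icc 1 (NX X)).filter (fun n => n.Prime), wx X n * om z l h n =
        ∑ n ∈ PQ X, wx X n * om z l h n := by
      symm
      refine Finset.sum_subset ?_ h3
      intro q hq
      unfold PQ at hq
      rw [mem_filter] at hq ⊢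
      exact ⟨hq.1, hq.2.1⟩
    rw [h4]
    refine Finset.sum_le_sum fun q hq => ?_
    unfold PQ at hq
    rw [mem_filter, mem_Icc] at hq
    obtain ⟨⟨hq1, hq2⟩, hqp, hq3⟩ := hq
    have hq0 : (0 : ℝ) < q := by exact_mod_cast hq1
    have hq4 : (q : ℝ) ≤ 4 * X := (by exact_mod_cast hq2 : (q : ℝ) ≤ NX X).trans (NX_le X hX)
    have h5 : wx X q ≤ Real.log (4 * X) := by
      unfold wx
      have h6 : (Λ q : ℝ) ≤ Real.log (4 * X) :=
        vonMangoldt_le_log.trans (Real.log_le_log hq0 hq4)
      calc (Λ q : ℝ) * hat (Real.log (q / X)) ≤ Λ q * 1 := by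
            have : (0 : ℝ) ≤ Λ q := vonMangoldt_nonneg
            gcongr
            exact hat_le_one _
        _ ≤ Real.log (4 * X) := by linarith
    have h6 : (0 : ℝ) ≤ om z l h q := Nat.cast_nonneg _
    calc wx X q * om z l h q ≤ Real.log (4 * X) * om z l h q := by gcongr
      _ = (om z l h q : ℝ) / q * (q * Real.log (4 * X)) := by field_simp
      _ ≤ (om z l h q : ℝ) / q * (4 * X * Real.log (4 * X)) := by gcongr
  linarith

end Pool.Agent.H73.NK
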