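import Pool.Agent.H30.BV.Targets

/-!
Targets for MP_0cd084_nt (the number of sum = product multisets of size `k`): outside a very thin
set of `k` there are many solutions. Board nk_modules.

Rough numbers in logarithmic windows, distinct residue classes modulo primes `q` such that `q + 1`
has many factorisations, a mean value theorem for rough moduli, large sieve.
-/

set_option autoImplicit false

open Finset

namespace Pool.Agent.H73.NK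

open Pool.Agent.H30.BV (SC SP NX WX wx T_S1 T_DY T_CL T_WM)

/-! ## Definitions -/

/-- the multisets of `k` positive integers whose product equals their sum -/
def SPM (k : ℕ) : Set (Multiset ℕ) :=
  {s : Multiset ℕ | Multiset.card s = k ∧ (∀ a ∈ s, 0 < a) ∧ s.prod = s.sum}

/-- all prime factors of `a` are larger than `z` -/
def Rough (z : ℝ) (a : ℕ) : Prop := ∀ p : ℕ, p.Prime → p ∣ a → z < p

open Classical in
/-- the rough numbers up to `N` -/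
noncomputable def RN (z : ℝ) (N : ℕ) : Finset ℕ := (Icc 1 N).filter (fun a : ℕ => Rough z a)

open Classical in
/-- the rough numbers in the window `exp (h * l) ≤ a < exp ((h + 1) * l)` -/
noncomputable def VW (z l : ℝ) (h : ℕ) : Finset ℕ :=
  (range ⌈Real.exp ((h + 1) * l)⌉₊).filter
    (fun a : ℕ => Real.exp (h * l) ≤ a ∧ Rough z a)

/-- the tuples of rough numbers in the windows `h i` -/
noncomputable def TT {s : ℕ} (z l : ℝ) (h : Fin s → ℕ) : Finset (Fin s → ℕ) :=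
  Fintype.piFinset (fun i => VW z l (h i))

/-- the product of a tuple -/
def DT {s : ℕ} (t : Fin s → ℕ) : ℕ := ∏ i, t i

/-- the sum of `a - 1` over the entries of `t` and the cofactor `(q + 1) / ∏ t` -/
def TS {s : ℕ} (q : ℕ) (t : Fin s → ℕ) : ℕ := ∑ i, (t i - 1) + ((q + 1) / DT t - 1)

open Classical in
/-- the bad tuples: a divisor of the product is very close to an entry -/
noncomputable def BT {s : ℕ} (z l : ℝ) (h : Fin s → ℕ) : Finset (Fin s → ℕ) :=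
  (TT z l h).filter (fun t => ∃ (j : Fin s) (a : ℕ), a ∣ DT t ∧ a ≠ t j ∧
    |(a : ℝ) - t j| ≤ 2 * Real.exp (-l) * t j)

/-- the number of tuples whose product divides `n + 1` -/
noncomputable def om {s : ℕ} (z l : ℝ) (h : Fin s → ℕ) (n : ℕ) : ℕ :=
  ((TT z l h).filter (fun t => DT t ∣ n + 1)).card

/-- the number of bad tuples whose product divides `n + 1` -/
noncomputable def bm {s : ℕ} (z l : ℝ) (h : Fin s → ℕ) (n : ℕ) : ℕ :=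
  ((BT z l h).filter (fun t => DT t ∣ n + 1)).card

/-- the ordered factorisations of `r` into `s` factors -/
def fm (s r : ℕ) : Finset (Fin s → ℕ) :=
  (Fintype.piFinset fun _ : Fin s => r.divisors).filter (fun f => ∏ i, f i = r)

open Classical in
/-- the primes `X / 3 ≤ q ≤ NX X` -/
noncomputable def PQ (X : ℝ) : Finset ℕ :=
  (Icc 1 (NX X)).filter (fun q : ℕ => q.Prime ∧ X / 3 ≤ q)

/-- `k` has a solution in which `q + 1` is the product of all terms but the largest one -/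
def Sol (q k : ℕ) : Prop := ∃ M ∈ SPM k, ∃ c ∈ M, M.prod = c * (q + 1) ∧ q + 1 < c

/-! ## Part I: rough numbers -/

/-- SM. Reciprocals of rough numbers, lower bound. -/
def T_SM : Prop := ∃ C : ℝ, 1 ≤ C ∧ ∀ (z : ℝ) (N : ℕ), 2 ≤ z → 1 ≤ N →
  Real.log N ≤ C * Real.log z * ∑ b ∈ RN z N, (1 : ℝ) / b

/-- UP. Reciprocals of the rough numbers of a window, upper bound. -/
def T_UP : Prop := ∀ (z l : ℝ) (h : ℕ), 2 ≤ z → 0 ≤ l →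
  Real.log z * ∑ a ∈ VW z l h, (1 : ℝ) / a ≤ l + Real.log z + 1

/-- WI. Windows with many rough numbers. -/
def T_WI : Prop := ∃ C : ℝ, 1 ≤ C ∧ ∀ (s : ℕ) (z : ℝ), 1 ≤ s → 3 ≤ z → ∃ h : Fin s → ℕ,
  (∀ i, 1 ≤ h i ∧ (h i : ℝ) ≤ C * s) ∧ (∀ i j, i < j → h i + 2 ≤ h j) ∧
  ∀ i, Real.exp 6 ≤ ∑ a ∈ VW z (C * Real.log z) (h i), (1 : ℝ) / a

/-- SZ. Simple facts about the tuples. -/
def T_SZ : Prop := ∀ (s : ℕ) (z l H : ℝ) (h : Fin s → ℕ), 0 ≤ l →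
  (∀ i, (h i : ℝ) + 1 ≤ H) →
    (∀ t ∈ TT z l h, 1 ≤ DT t ∧ (DT t : ℝ) ≤ Real.exp (s * H * l) ∧ Rough z (DT t) ∧
      (∀ i, 1 ≤ t i ∧ Real.exp (h i * l) ≤ t i ∧ (t i : ℝ) < Real.exp ((h i + 1) * l))) ∧
    ((TT z l h).card : ℝ) ≤ Real.exp (s * H * l) ∧
    ∑ t ∈ TT z l h, (1 : ℝ) / DT t = ∏ i, ∑ a ∈ VW z l (h i), (1 : ℝ) / a

/-- DR. Tuples whose product is divisible by `r`. -/
def T_DR : Prop := ∀ (s : ℕ) (z l H : ℝ) (h : Fin s → ℕ) (r : ℕ), 0 ≤ l →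
  (∀ i, (h i : ℝ) + 1 ≤ H) → 1 ≤ r →
    ∑ t ∈ (TT z l h).filter (fun t => r ∣ DT t), (1 : ℝ) / DT t ≤
      (1 + H * l) ^ s * (fm s r).card / r

/-- FM. Factorisations of rough numbers. -/
def T_FM : Prop := ∀ (s r : ℕ) (z : ℝ), 1 ≤ r → (s : ℝ) ^ 2 ≤ z → 1 ≤ z → Rough z r →
  ((fm s r).card : ℝ) ^ 2 ≤ r

/-- TO. Euler's function of rough numbers. -/
def T_TO : Prop := ∀ (D : ℕ) (z : ℝ), 1 ≤ D → 2 ≤ z → Rough z D →
  2 * Real.log D ≤ z * Real.log z → (D : ℝ) ≤ 2 * D.totient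

/-! ## Part II: primes -/

/-- ER. The error terms for rough moduli. -/
def T_ER : Prop := ∃ C : ℝ, 0 < C ∧ ∀ (s : ℕ) (z l H X : ℝ) (h : Fin s → ℕ), 3 ≤ X → 0 ≤ l →
  1 ≤ s → (s : ℝ) ^ 2 ≤ z → 3 ≤ z → (∀ i, (h i : ℝ) + 1 ≤ H) →
  2 * (s * H * l) ≤ z * Real.log z → (2 * Real.exp (s * H * l)) ^ 8 ≤ X →
    ∑ t ∈ TT z l h, (SC X (DT t) + 8 * Real.log X ^ 2) / (DT t).totient ≤
      C * Real.log X ^ 2 * (Real.exp (s * H * l) + (1 + H * l) ^ s * X / √z)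

/-- WS. The weighted number of tuples. -/
def T_WS : Prop := ∃ c X₀ : ℝ, 0 < c ∧ ∀ (s : ℕ) (z l X : ℝ) (h : Fin s → ℕ), X₀ ≤ X →
  (∀ t ∈ TT z l h, 1 ≤ DT t ∧ (DT t : ℝ) ≤ X) →
    c * X * ∑ t ∈ TT z l h, (1 : ℝ) / DT t -
      ∑ t ∈ TT z l h, (SC X (DT t) + 8 * Real.log X ^ 2) / (DT t).totient ≤
        ∑ n ∈ Icc 1 (NX X), wx X n * om z l h n

/-- PP. Prime powers. -/
def T_PP : Prop := ∃ C : ℝ, 0 < C ∧ ∀ X : ℝ, 3 ≤ X →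
  ∑ n ∈ (Icc 1 (NX X)).filter (fun n => ¬ n.Prime), wx X n ≤ C * √X * Real.log X ^ 2

/-- PR. From the weighted sum to the primes of `PQ X`. -/
def T_PR : Prop := ∃ C : ℝ, 0 < C ∧ ∀ (s : ℕ) (z l X : ℝ) (h : Fin s → ℕ), 3 ≤ X →
  (∑ n ∈ Icc 1 (NX X), wx X n * om z l h n -
    C * √X * Real.log X ^ 2 * (TT z l h).card) / (4 * X * Real.log (4 * X)) ≤
      ∑ q ∈ PQ X, (om z l h q : ℝ) / q

/-! ## Part III: bad tuples -/

/-- BD. The bad tuples are rare. -/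
def T_BD : Prop := ∀ (s : ℕ) (z l H : ℝ) (h : Fin s → ℕ), 2 ≤ l → (∀ i, (h i : ℝ) + 1 ≤ H) →
  ∑ t ∈ BT z l h, (1 : ℝ) / DT t ≤ 16 * s * Real.exp (-l) * (1 + H * l) ^ (2 * s)

/-- BQ. The bad tuples for the primes of `PQ X`. -/
def T_BQ : Prop := ∀ (s : ℕ) (z l X : ℝ) (h : Fin s → ℕ), 3 ≤ X → 0 ≤ l →
  ∑ q ∈ PQ X, (bm z l h q : ℝ) / q ≤
    2 * (1 + Real.log (5 * X)) * ∑ t ∈ BT z l h, (1 : ℝ) / DT t

/-- IJ. The other tuples give distinct residue classes. -/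
def T_IJ : Prop := ∀ (s : ℕ) (z l H : ℝ) (h : Fin s → ℕ) (q : ℕ), 1 ≤ s → 2 ≤ l →
  (∀ i, (h i : ℝ) + 1 ≤ H) → (∀ i, 1 ≤ h i) → (∀ i j, i < j → h i + 2 ≤ h j) →
  Real.exp (4 * (s * H * l)) ≤ q →
    (∀ t ∈ TT z l h, DT t ∣ q + 1 → 2 ≤ TS q t ∧ TS q t < q ∧ 2 ≤ (q + 1) / DT t ∧
      ∀ i, 2 ≤ t i) ∧
    ∀ t ∈ TT z l h \ BT z l h, ∀ t' ∈ TT z l h \ BT z l h, DT t ∣ q + 1 → DT t' ∣ q + 1 →
      TS q t = TS q t' → t = t'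

/-! ## Part IV: solutions -/

/-- SO. Solutions from factorisations. -/
def T_SO : Prop := ∀ (l : Multiset ℕ) (q k : ℕ), (∀ a ∈ l, 2 ≤ a) → l.prod = q + 1 → 2 ≤ q →
  (q + 2) ^ 2 ≤ k → q ∣ k - 1 + (l.sum - Multiset.card l) → Sol q k

/-- CN. Counting solutions. -/
def T_CN : Prop := ∀ (k : ℕ) (A : Finset ℕ), 2 ≤ k → (∀ q ∈ A, Sol q k) →
  A.card ≤ (SPM k).ncard

/-! ## Part V: the sieve -/

/-- LV. Large sieve for products of primes from disjoint blocks. -/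
def T_LV : Prop := ∃ K : ℝ, 0 < K ∧ ∀ (N m : ℕ) (Q : ℝ) (P : Fin m → Finset ℕ)
  (Z : ℕ → Finset ℕ) (S : Finset ℕ), 1 ≤ N → 1 ≤ Q →
  (∀ i, ∀ q ∈ P i, q.Prime ∧ (q : ℝ) ≤ Q) → (∀ i j, i ≠ j → Disjoint (P i) (P j)) →
  S ⊆ range N → (∀ i, ∀ q ∈ P i, Z q ⊆ range q ∧ ∀ n ∈ S, n % q ∉ Z q) →
    (S.card : ℝ) * ∏ i, (∑ q ∈ P i, ((Z q).card : ℝ) / q) ≤ K * (N + Q ^ (2 * m))

/-- PA. Division of a set into parts with large sums. -/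
def T_PA : Prop := ∀ (n : ℕ) (B : ℝ) (P : Finset ℕ) (g : ℕ → ℝ), 0 ≤ B →
  (∀ q ∈ P, 0 ≤ g q ∧ g q ≤ 1) → n * (B + 1) ≤ ∑ q ∈ P, g q →
    ∃ F : ℕ → ℕ, ∀ i < n, B ≤ ∑ q ∈ P.filter (fun q => F q = i), g q

/-! ## Part VI: conclusions -/

/-- F1. Choice of the parameters. -/
def T_F1 : Prop := ∃ (C : ℝ) (s₀ : ℕ), 1 ≤ C ∧ ∀ s : ℕ, s₀ ≤ s →
  ∃ (z l H X : ℝ) (h : Fin s → ℕ), 2 ≤ l ∧ (∀ i, (h i : ℝ) + 1 ≤ H) ∧ (∀ i, 1 ≤ h i) ∧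
    (∀ i j, i < j → h i + 2 ≤ h j) ∧ 12 ≤ X ∧ Real.exp (4 * (s * H * l)) ≤ X / 3 ∧
    (NX X : ℝ) ≤ Real.exp (C * s ^ 3 * Real.log s) ∧
    Real.exp (4 * s) ≤ ∑ q ∈ PQ X, ((om z l h q : ℝ) - bm z l h q) / q

/-- F2. Many primes with many residue classes. -/
def T_F2 : Prop := ∃ (C : ℝ) (s₀ : ℕ), 1 ≤ C ∧ ∀ s : ℕ, s₀ ≤ s →
  ∃ (P : Finset ℕ) (Z : ℕ → Finset ℕ),
    (∀ q ∈ P, q.Prime ∧ (q : ℝ) ≤ Real.exp (C * s ^ 3 * Real.log s) ∧ Z q ⊆ range q) ∧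
    (∀ q ∈ P, ∀ k : ℕ, k % q ∈ Z q → Real.exp (3 * (C * s ^ 3 * Real.log s)) ≤ k → Sol q k) ∧
    Real.exp (4 * s) ≤ ∑ q ∈ P, ((Z q).card : ℝ) / q

/-- F3. Exceptional set, for one `x` and abstract parameters. `G` is the number of groups and `m`
the number of blocks of a group. -/
def T_F3 : Prop := ∃ K : ℝ, 0 < K ∧ ∀ (P : Finset ℕ) (Z : ℕ → Finset ℕ) (Q B y : ℝ)
  (x G m : ℕ), 1 ≤ x → 1 ≤ Q → 0 ≤ B → 2 ≤ y →
  (∀ q ∈ P, q.Prime ∧ (q : ℝ) ≤ Q ∧ Z q ⊆ range q) →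
  (∀ q ∈ P, ∀ k : ℕ, k % q ∈ Z q → y ≤ k → Sol q k) →
  ((G * m : ℕ) : ℝ) * (B + 1) ≤ ∑ q ∈ P, ((Z q).card : ℝ) / q → 1 ≤ m →
    (((Icc 1 x).filter (fun k => (SPM k).ncard < G)).card : ℝ) * B ^ m ≤
      y * B ^ m + G * (K * (x + Q ^ (2 * m)))

/-- FI. The final theorem. -/
def T_FI : Prop := ∃ C x₀ : ℝ, 0 < C ∧ ∀ x L : ℝ, x₀ ≤ x → Real.log (Real.log x) ≤ L →
  L ≤ Real.log x ^ (1 / 4 : ℝ) →
    (((Icc 1 ⌊x⌋₊).filter (fun k => ((SPM k).ncard : ℝ) < Real.exp L)).card : ℝ) ≤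
      x ^ (1 - 1 / (C * L ^ 2 * Real.log L))

end Pool.Agent.H73.NK
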